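import Pool.Agent.K1H49.PL.Gen

set_option autoImplicit false

/-! Project PL, general case, piece LAM: long well orders. -/

namespace Pool.Agent.K1H20.PLG

theorem t_LAM : Pool.Agent.K1H49.PL.S_LAM := by
  intro C
  obtain ⟨κ, hκ⟩ : ∃ κ : Cardinal.{0}, κ = Order.succ (max (Cardinal.mk C) Cardinal.aleph0) := ⟨_, rfl⟩
  have hreg : κ.IsRegular := by
    rw [hκ]
    exact Cardinal.isRegular_succ (le_max_right _ _)
  have hne : Nonempty κ.ord.ToType := by
    rw [← Cardinal.mk_ne_zero_iff, Cardinal.mk_ord_toType]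
    exact hreg.pos.ne'
  refine ⟨κ.ord.ToType, inferInstance, inferInstance, hne, Cardinal.noMaxOrder hreg.aleph0_le, ?_⟩
  intro g
  by_contra hcon
  push Not at hcon
  have hcof : IsCofinal (Set.range g) := fun b => by
    obtain ⟨c, hc⟩ := hcon b
    exact ⟨g c, ⟨c, rfl⟩, hc⟩
  have h1 := Order.cof_le hcof
  rw [Ordinal.cof_toType, hreg.cof_ord] at h1
  have h3 : κ ≤ Cardinal.mk C := h1.trans Cardinal.mk_range_le
  have h4 : κ ≤ max (Cardinal.mk C) Cardinal.aleph0 := h3.trans (le_max_left _ _)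
  rw [hκ] at h4
  exact absurd h4 (not_le.2 (Order.lt_succ _))

end Pool.Agent.K1H20.PLG
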